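import Mathlib

/-!
# MP_711a76_lc: weight-preserving isometries of stabilizer codes of distance above 2

The stabilizer `S` of the five-qubit code `[[5,1,3]]` has fifteen nonzero elements, all of
weight 4. Hence every linear bijection `S → S` preserves the weight. A transvection of `S ≅ 𝔽₂⁴`
sends two elements which vanish at a common position to two elements which do not, so it is not
induced by a monomial transformation. This answers Q1 in the negative.
-/

namespace Pool.Agent.Results.MP_711a76_lc.FiveQubitCounterexample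

/-- The alphabet `A_q = 𝔽_q²`. -/
abbrev Alph (q : ℕ) : Type := ZMod q × ZMod q

/-- The space `A_q^n` of words `u = (u_1, …, u_n)`. -/
abbrev Word (q n : ℕ) : Type := Fin n → Alph q

/-- a name for the usual (coordinatewise) addition of words -/
instance instAddWord (q n : ℕ) : AddCommGroup (Word q n) := inferInstance

/-- a name for the usual (coordinatewise) scalar multiplication of words -/
instance instModWord (q n : ℕ) : Module (ZMod q) (Word q n) := inferInstance

/-- The subspaces of `A_q^n`. -/
abbrev Code (q n : ℕ) : Type := Submodule (ZMod q) (Word q n)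

/-- The symplectic form on `A_q^n`: the sum over the coordinates of
`⟨(a, b), (a', b')⟩ = a b' - a' b`. -/
def symp {q n : ℕ} (u v : Word q n) : ZMod q :=
  ∑ i, ((u i).1 * (v i).2 - (v i).1 * (u i).2)

/-- The weight: the number of nonzero coordinates. -/
def wt {q n : ℕ} (u : Word q n) : ℕ :=
  (Finset.univ.filter fun i : Fin n => (u i : Alph q) ≠ 0).card

/-- The symplectic dual `C^⊥` (as a set). -/
def dual {q n : ℕ} (C : Code q n) : Set (Word q n) :=
  {u | ∀ v ∈ C, symp u v = 0}

/-- A stabilizer code: a subspace `C` with `C ⊆ C^⊥`. -/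
def IsStabilizerCode {q n : ℕ} (C : Code q n) : Prop :=
  ∀ u ∈ C, u ∈ dual C

open Classical in
/-- The distance `d(C)`: the least weight of a nonzero element of `C` if `C = C^⊥`, and the least
weight of an element of `C^⊥ \ C` otherwise. -/
noncomputable def dist {q n : ℕ} (C : Code q n) : ℕ :=
  if ∀ u, u ∈ C ↔ u ∈ dual C then sInf {w | ∃ u ∈ C, u ≠ 0 ∧ wt u = w}
  else sInf {w | ∃ u ∈ dual C, u ∉ C ∧ wt u = w}

/-- A weight-preserving isometry: a linear bijection `f : C → D` with `wt (f c) = wt c`. -/
structure IsIsometry {q n : ℕ} {C D : Code q n} (f : C → D) : Prop where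
  add : ∀ x y : C, f (x + y) = f x + f y
  smul : ∀ (r : ZMod q) (x : C), f (r • x) = r • f x
  bijective : Function.Bijective f
  weight : ∀ c : C, wt (f c).1 = wt c.1

/-- `GL(2, q)`: the invertible linear maps of `A_q = 𝔽_q²`. -/
abbrev GL2 (q : ℕ) : Type := Alph q ≃ₗ[ZMod q] Alph q

/-- the action of `g ∈ GL(2, q)` on `A_q` -/
def act {q : ℕ} (g : GL2 q) (x : Alph q) : Alph q := g x

lemma act_zero {q : ℕ} (g : GL2 q) : act g 0 = 0 := map_zero g

/-- The monomial transformation `(u_1, …, u_n) ↦ (g_1 u_{π⁻¹(1)}, …, g_n u_{π⁻¹(n)})` with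
`π ∈ S_n` and `g_i ∈ GL(2, q)`. -/
def monomial {q n : ℕ} (π : Equiv.Perm (Fin n)) (g : Fin n → GL2 q) (u : Word q n) : Word q n :=
  fun i => act (g i) (u (π.symm i))

/-- The map `f : C → D` extends to a monomial transformation. -/
def Extends {q n : ℕ} {C D : Code q n} (f : C → D) : Prop :=
  ∃ (π : Equiv.Perm (Fin n)) (g : Fin n → GL2 q), ∀ c : C, monomial π g c.1 = (f c).1

/-- The statement asked about: for every prime `q` and every `n`, every weight-preserving isometry
between stabilizer codes of length `n` and distance above 2 extends to a monomial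
transformation. -/
def ExtensionStatement : Prop :=
  ∀ q : ℕ, q.Prime → ∀ n : ℕ, ∀ C D : Code q n,
    IsStabilizerCode C → IsStabilizerCode D → 2 < dist C → 2 < dist D →
      ∀ f : C → D, IsIsometry f → Extends f

/-- the word with message `a`, with the generators `XZZXI, IXZZX, XIXZZ, ZXIXZ` -/
def word (a : Fin 4 → ZMod 2) : Word 2 5 :=
  ![(a 0 + a 2, a 3), (a 1 + a 3, a 0), (a 2, a 0 + a 1), (a 0 + a 3, a 1 + a 2), (a 1, a 2 + a 3)]

lemma word_add : ∀ a b : Fin 4 → ZMod 2, word (a + b) = word a + word b := by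
  decide +kernel

lemma word_smul : ∀ (r : ZMod 2) (a : Fin 4 → ZMod 2), word (r • a) = r • word a := by
  decide +kernel

/-- the encoding map -/
def enc : (Fin 4 → ZMod 2) →ₗ[ZMod 2] Word 2 5 where
  toFun := word
  map_add' := word_add
  map_smul' := word_smul

lemma wt_word : ∀ a : Fin 4 → ZMod 2, a ≠ 0 → wt (word a) = 4 := by
  decide +kernel

lemma enc_inj : Function.Injective enc := by
  rw [← LinearMap.ker_eq_bot, LinearMap.ker_eq_bot']
  intro a ha
  by_contra h
  have h1 := wt_word a h
  have h2 : word a = 0 := ha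
  rw [h2] at h1
  exact absurd h1 (by decide +kernel)

/-- the transvection `a_1 ↦ a_1 + a_3` -/
def trans (a : Fin 4 → ZMod 2) : Fin 4 → ZMod 2 := ![a 0, a 1 + a 3, a 2, a 3]

lemma trans_trans : ∀ a, trans (trans a) = a := by decide +kernel

/-- the transvection as a linear equivalence -/
def transE : (Fin 4 → ZMod 2) ≃ₗ[ZMod 2] (Fin 4 → ZMod 2) where
  toFun := trans
  invFun := trans
  map_add' := by
    intro a b
    funext i
    fin_cases i <;> simp [trans] <;> ring
  map_smul' := by
    intro r a
    funext i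
    fin_cases i <;> simp [trans] <;> ring
  left_inv := trans_trans
  right_inv := trans_trans

/-- the stabilizer of the five-qubit code -/
abbrev five : Code 2 5 := LinearMap.range enc

lemma symp_word : ∀ a b : Fin 4 → ZMod 2, symp (word a) (word b) = 0 := by
  decide +kernel

lemma five_stab : IsStabilizerCode five := by
  rintro _ ⟨a, rfl⟩ _ ⟨b, rfl⟩
  exact symp_word a b

/-- unit messages -/
def e (j : Fin 4) : Fin 4 → ZMod 2 := Pi.single j 1

lemma dual_wt : ∀ u0 u1 u2 u3 u4 : Alph 2,
    (∀ j : Fin 4, symp (![u0, u1, u2, u3, u4] : Word 2 5) (word (e j)) = 0) →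
      (![u0, u1, u2, u3, u4] : Word 2 5) = 0 ∨ 3 ≤ wt (![u0, u1, u2, u3, u4] : Word 2 5) := by
  decide +kernel

lemma dual_wt' (u : Word 2 5) (hu : u ∈ dual five) : u = 0 ∨ 3 ≤ wt u := by
  have h : u = (![u 0, u 1, u 2, u 3, u 4] : Word 2 5) := by
    funext i
    fin_cases i <;> rfl
  rw [h]
  apply dual_wt
  intro j
  rw [← h]
  exact hu _ ⟨e j, rfl⟩

/-- the word `XXXXX` -/
def xword : Word 2 5 := fun _ => (1, 0)

/-- `XXXXX` commutes with the stabilizer -/
lemma ex_dual : ∀ a : Fin 4 → ZMod 2, symp xword (word a) = 0 := by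
  decide +kernel

lemma ex_not : ∀ a : Fin 4 → ZMod 2, word a ≠ xword := by
  decide +kernel

lemma five_dist : 2 < dist five := by
  have hx1 : xword ∈ dual five := by
    rintro _ ⟨a, rfl⟩
    exact ex_dual a
  have hx2 : xword ∉ five := by
    rintro ⟨a, ha⟩
    exact ex_not a ha
  have hne : ¬ ∀ u, u ∈ five ↔ u ∈ dual five := by
    intro h
    exact hx2 ((h _).mpr hx1)
  unfold dist
  rw [if_neg hne]
  have hmem := Nat.sInf_mem (s := {w | ∃ u ∈ dual five, u ∉ five ∧ wt u = w})
    ⟨_, _, hx1, hx2, rfl⟩
  obtain ⟨u, hu1, hu2, hu3⟩ := hmem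
  rw [← hu3]
  rcases dual_wt' u hu1 with h | h
  · exact absurd (h ▸ five.zero_mem) hu2
  · exact h

/-- the isometry -/
noncomputable def iso : five ≃ₗ[ZMod 2] five :=
  ((LinearEquiv.ofInjective enc enc_inj).symm.trans transE).trans
    (LinearEquiv.ofInjective enc enc_inj)

lemma iso_enc (a : Fin 4 → ZMod 2) :
    (iso (LinearEquiv.ofInjective enc enc_inj a)).1 = word (trans a) := by
  have h : iso (LinearEquiv.ofInjective enc enc_inj a)
      = LinearEquiv.ofInjective enc enc_inj (transE a) := by
    unfold iso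
    rw [LinearEquiv.trans_apply, LinearEquiv.trans_apply, LinearEquiv.symm_apply_apply]
  rw [h, LinearEquiv.ofInjective_apply]
  rfl

lemma wt_trans : ∀ a : Fin 4 → ZMod 2, wt (word (trans a)) = wt (word a) := by
  decide +kernel

lemma no_common : ∀ i : Fin 5,
    ¬ ((word (trans ![1, 0, 0, 0]) i : Alph 2) = 0 ∧ (word (trans ![0, 0, 1, 1]) i : Alph 2) = 0) := by
  decide +kernel

/-- The extension statement is false: it fails for `q = 2`, `n = 5` and the stabilizer of the
five-qubit code. -/
theorem result : ¬ ExtensionStatement := by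
  intro H
  have hw : IsIsometry (iso : five → five) := by
    refine ⟨map_add iso, map_smul iso, iso.bijective, ?_⟩
    intro c
    obtain ⟨a, rfl⟩ := (LinearEquiv.ofInjective enc enc_inj).surjective c
    rw [iso_enc, LinearEquiv.ofInjective_apply]
    exact wt_trans a
  obtain ⟨π, g, hg⟩ := H 2 Nat.prime_two 5 five five five_stab five_stab five_dist five_dist iso hw
  have key : ∀ a : Fin 4 → ZMod 2, (word a 4 : Alph 2) = 0 → (word (trans a) (π 4) : Alph 2) = 0 := by
    intro a ha
    have h := congrFun (hg (LinearEquiv.ofInjective enc enc_inj a)) (π 4)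
    rw [iso_enc] at h
    rw [← h]
    unfold monomial
    rw [Equiv.symm_apply_apply, LinearEquiv.ofInjective_apply]
    have : enc a 4 = 0 := ha
    rw [this]
    exact act_zero _
  exact no_common (π 4) ⟨key _ (by decide +kernel), key _ (by decide +kernel)⟩

end Pool.Agent.Results.MP_711a76_lc.FiveQubitCounterexample
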